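import Mathlib
import Pool.Agent.Run7.h476.LQ.Power
import Pool.Agent.Run7.h476.LQ.Part

set_option autoImplicit false

/-!
# Diagonal ternary quadratic equations and long progressions of almost constant colour

Let `a, b, c` be nonzero integers such that two of the three coefficients `a, b, -c` of the equation
`a x ^ 2 + b y ^ 2 - c z ^ 2 = 0` have sum zero, that is `b = c` or `a = c` or `a = -b`. (Together
with `a + b = c` these are the cases of Rado's condition.) We consider finite families of sets of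
positive integers, for instance the classes of a finite colouring, about which we know nothing
except that at every scale there is ONE long homogeneous progression with almost all its elements
in one of the sets, and show that one of the sets contains arbitrarily large solutions with distinct
`x, y, z`.

* Let `θ > 0`. There is `η > 0`, depending only on `θ` and the number of sets, such that the
  following holds. Suppose that for arbitrarily large `N₁` and for all `N` in `[N₁, N₁ ^ 2]` there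
  are `q ≤ N ^ η`, `A` in `[N, N ^ (1 + η)]` and a set `V e` which contains all but at most
  `A ^ (1 - θ)` of the multiples of `q` in the interval `[A, A + A ^ (1 - η)]`. Then one of the sets
  contains arbitrarily large solutions.

* Let `D` be an ample set: for every `S` the numbers `k` with `k, 2 k, …, S k` in `D` have positive
  lower density along all the sequences of intervals `[A, (1 + δ) A]`. For all `δ > 0` and `C` there
  are `ε > 0` and `R` such that the following holds. Suppose that for arbitrarily large `N₁` and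
  for all `N` in `[N₁, R N₁]` there are `A` in `[N, C N]` and a set `V e` which contains all but at
  most `ε A` of the elements of `D` in the interval `[A, (1 + δ) A]`. Then one of the sets `D ∩ V e`
  contains arbitrarily large solutions.

Proof. After an exchange of the unknowns the equation is `m x ^ 2 = n (z ^ 2 - y ^ 2)`, `m, n > 0`.
Two of `r + 1` well separated scales `A < B` have the same set. Consider the solutions
`(2 n t k, (n t ^ 2 - m) k, (n t ^ 2 + m) k)` for the integer `t` with `(n t ^ 2 - m) / (2 n t)` just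
above `B / A` and for all suitable `k` with `2 n t k` in an initial part of the progression at `A`;
the other two members are in the progression at `B`, and there are more such `k` than exceptions.
-/

namespace Pool.Agent.Results.MP_6ee505_co.LongProgressions

/-- For all `S` and `δ > 0` there is `ρ > 0` such that for all large `A` there are at least `ρ A`
numbers `k` in `[A, (1 + δ) A]` with `k, 2 k, …, S k` in `D`. -/
def Ample (D : Set ℕ) : Prop :=
  ∀ (S : ℕ) (δ : ℝ), 0 < δ → ∃ ρ : ℝ, 0 < ρ ∧ ∃ A₀ : ℕ, ∀ A ≥ A₀,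
    ρ * A ≤ ({k : ℕ | A ≤ k ∧ (k : ℝ) ≤ (1 + δ) * A ∧ ∀ s, 0 < s → s ≤ S → s * k ∈ D}.ncard : ℝ)

/-- `V` contains arbitrarily large solutions of `a x ^ 2 + b y ^ 2 = c z ^ 2` with distinct
`x, y, z`. -/
def HasSolutions (a b c : ℤ) (V : Set ℕ) : Prop :=
  ∀ K : ℕ, ∃ x ∈ V, ∃ y ∈ V, ∃ z ∈ V, K < x ∧ K < y ∧ K < z ∧ x ≠ y ∧ y ≠ z ∧ x ≠ z ∧
    a * (x : ℤ) ^ 2 + b * (y : ℤ) ^ 2 = c * (z : ℤ) ^ 2

theorem conv {a b c : ℤ} (ha : a ≠ 0) (hb : b ≠ 0) (hc : c ≠ 0) (h : b = c ∨ a = c ∨ a = -b) :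
    ∃ m n : ℕ, 0 < m ∧ 0 < n ∧ ∀ V : Set ℕ,
      (∀ K : ℕ, ∃ x ∈ V, ∃ y ∈ V, ∃ z ∈ V, K < x ∧ x < y ∧ y < z ∧
        m * x ^ 2 + n * y ^ 2 = n * z ^ 2) → HasSolutions a b c V := by
  rcases h with rfl | rfl | rfl
  · refine ⟨a.natAbs, b.natAbs, Int.natAbs_pos.2 ha, Int.natAbs_pos.2 hb, fun V h K => ?_⟩
    obtain ⟨u, hu, v, hv, w, hw, h1, h2, h3, h4⟩ := h K
    have h5 : |a| * (u : ℤ) ^ 2 + |b| * (v : ℤ) ^ 2 = |b| * (w : ℤ) ^ 2 := by
      rw [← Int.natCast_natAbs, ← Int.natCast_natAbs]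
      exact_mod_cast h4
    rcases le_total 0 a with ha' | ha' <;> rcases le_total 0 b with hb' | hb'
    · rw [abs_of_nonneg ha', abs_of_nonneg hb'] at h5
      exact ⟨u, hu, v, hv, w, hw, by omega, by omega, by omega, by omega, by omega, by omega, h5⟩
    · rw [abs_of_nonneg ha', abs_of_nonpos hb'] at h5
      exact ⟨u, hu, w, hw, v, hv, by omega, by omega, by omega, by omega, by omega, by omega,
        by linarith⟩
    · rw [abs_of_nonpos ha', abs_of_nonneg hb'] at h5
      exact ⟨u, hu, w, hw, v, hv, by omega, by omega, by omega, by omega, by omega, by omega,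
        by linarith⟩
    · rw [abs_of_nonpos ha', abs_of_nonpos hb'] at h5
      exact ⟨u, hu, v, hv, w, hw, by omega, by omega, by omega, by omega, by omega, by omega,
        by linarith⟩
  · refine ⟨b.natAbs, a.natAbs, Int.natAbs_pos.2 hb, Int.natAbs_pos.2 ha, fun V h K => ?_⟩
    obtain ⟨u, hu, v, hv, w, hw, h1, h2, h3, h4⟩ := h K
    have h5 : |b| * (u : ℤ) ^ 2 + |a| * (v : ℤ) ^ 2 = |a| * (w : ℤ) ^ 2 := by
      rw [← Int.natCast_natAbs, ← Int.natCast_natAbs]
      exact_mod_cast h4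
    rcases le_total 0 a with ha' | ha' <;> rcases le_total 0 b with hb' | hb'
    · rw [abs_of_nonneg ha', abs_of_nonneg hb'] at h5
      exact ⟨v, hv, u, hu, w, hw, by omega, by omega, by omega, by omega, by omega, by omega,
        by linarith⟩
    · rw [abs_of_nonneg ha', abs_of_nonpos hb'] at h5
      exact ⟨w, hw, u, hu, v, hv, by omega, by omega, by omega, by omega, by omega, by omega,
        by linarith⟩
    · rw [abs_of_nonpos ha', abs_of_nonneg hb'] at h5
      exact ⟨w, hw, u, hu, v, hv, by omega, by omega, by omega, by omega, by omega, by omega,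
        by linarith⟩
    · rw [abs_of_nonpos ha', abs_of_nonpos hb'] at h5
      exact ⟨v, hv, u, hu, w, hw, by omega, by omega, by omega, by omega, by omega, by omega,
        by linarith⟩
  · refine ⟨c.natAbs, b.natAbs, Int.natAbs_pos.2 hc, Int.natAbs_pos.2 hb, fun V h K => ?_⟩
    obtain ⟨u, hu, v, hv, w, hw, h1, h2, h3, h4⟩ := h K
    have h5 : |c| * (u : ℤ) ^ 2 + |b| * (v : ℤ) ^ 2 = |b| * (w : ℤ) ^ 2 := by
      rw [← Int.natCast_natAbs, ← Int.natCast_natAbs]
      exact_mod_cast h4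
    rcases le_total 0 c with hc' | hc' <;> rcases le_total 0 b with hb' | hb'
    · rw [abs_of_nonneg hc', abs_of_nonneg hb'] at h5
      exact ⟨v, hv, w, hw, u, hu, by omega, by omega, by omega, by omega, by omega, by omega,
        by linarith⟩
    · rw [abs_of_nonneg hc', abs_of_nonpos hb'] at h5
      exact ⟨w, hw, v, hv, u, hu, by omega, by omega, by omega, by omega, by omega, by omega,
        by linarith⟩
    · rw [abs_of_nonpos hc', abs_of_nonneg hb'] at h5
      exact ⟨w, hw, v, hv, u, hu, by omega, by omega, by omega, by omega, by omega, by omega,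
        by linarith⟩
    · rw [abs_of_nonpos hc', abs_of_nonpos hb'] at h5
      exact ⟨v, hv, w, hw, u, hu, by omega, by omega, by omega, by omega, by omega, by omega,
        by linarith⟩

/-- See the description of the two parts above. -/
theorem result (κ : Type*) [Finite κ] (a b c : ℤ) (ha : a ≠ 0) (hb : b ≠ 0) (hc : c ≠ 0)
    (habc : b = c ∨ a = c ∨ a = -b) :
    (∀ θ : ℝ, 0 < θ → ∃ η : ℝ, 0 < η ∧ ∀ V : κ → Set ℕ,
      (∀ N₀ : ℕ, ∃ N₁ ≥ N₀, ∀ N : ℕ, N₁ ≤ N → N ≤ N₁ ^ 2 → ∃ (q A : ℕ) (e : κ),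
        0 < q ∧ (q : ℝ) ≤ (N : ℝ) ^ η ∧ N ≤ A ∧ (A : ℝ) ≤ (N : ℝ) ^ (1 + η) ∧
        ({n : ℕ | q ∣ n ∧ A ≤ n ∧ (n : ℝ) ≤ A + (A : ℝ) ^ (1 - η) ∧ n ∉ V e}.ncard : ℝ) ≤
          (A : ℝ) ^ (1 - θ)) →
      ∃ e, HasSolutions a b c (V e)) ∧
    (∀ D : Set ℕ, Ample D → ∀ δ : ℝ, 0 < δ → ∀ C : ℕ, ∃ ε : ℝ, 0 < ε ∧ ∃ R : ℕ,
      ∀ V : κ → Set ℕ,
      (∀ N₀ : ℕ, ∃ N₁ ≥ N₀, ∀ N : ℕ, N₁ ≤ N → N ≤ R * N₁ → ∃ (A : ℕ) (e : κ),
        N ≤ A ∧ A ≤ C * N ∧
        ({n : ℕ | A ≤ n ∧ (n : ℝ) ≤ (1 + δ) * A ∧ n ∈ D ∧ n ∉ V e}.ncard : ℝ) ≤ ε * A) →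
      ∃ e, HasSolutions a b c (D ∩ V e)) := by
  obtain ⟨m, n, hm, hn, hV⟩ := conv ha hb hc habc
  refine ⟨fun θ hθ => ?_, fun D hD δ hδ C => ?_⟩
  · obtain ⟨η, hη, h⟩ := Run7.h476.LQ.power hm hn (κ := κ) θ hθ
    refine ⟨η, hη, fun V hyp => ?_⟩
    obtain ⟨e, he⟩ := h V hyp
    exact ⟨e, hV _ he⟩
  · obtain ⟨ε, hε, R, h⟩ := Run7.h476.LQ.thick hm hn (κ := κ) D hD δ hδ C
    refine ⟨ε, hε, R, fun V hyp => ?_⟩
    obtain ⟨e, he⟩ := h V hyp
    exact ⟨e, hV _ he⟩

end Pool.Agent.Results.MP_6ee505_co.LongProgressions
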